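import Pool.Agent.Helper84.FX.StX

/-!
# Project FX, chapter T, module TWG: tameness of `σ` on `W_G`
-/

set_option autoImplicit false

namespace Pool.Agent.Helper44.FX

open Pool.Agent.Helper84.FX Pool.Agent.Helper72.FX Set

private theorem line {F : (Fin 10 → ℂ) → ℂ} {x d : Fin 10 → ℂ} (hF : DifferentiableAt ℂ F x)
    {c : ℂ} (h : HasDerivAt (fun s : ℂ => F (x + s • d)) c 0) : fderiv ℂ F x d = c :=
  HasDerivAt.unique (hF.hasFDerivAt.hasLineDerivAt d) h

private theorem cd_abt : ContDiff ℂ (⊤ : ℕ∞) (fun z : Fin 10 → ℂ => (z 0, z 1, z 2)) := by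
  fun_prop

private theorem cd_E1 : ContDiff ℂ (⊤ : ℕ∞) EE1 := by
  unfold EE1 E1 nu
  fun_prop

private theorem cd_E2 (hK : StKSM) : ContDiff ℂ (⊤ : ℕ∞) EE2 := by
  obtain ⟨h1, h2, h3, h4, -⟩ := hK
  have k1 : ContDiff ℂ (⊤ : ℕ∞) (fun z : Fin 10 → ℂ => kx (z 0) (z 1) (z 2)) :=
    ContDiff.comp (g := fun q : ℂ × ℂ × ℂ => kx q.1 q.2.1 q.2.2)
      (f := fun z : Fin 10 → ℂ => (z 0, z 1, z 2)) h1 cd_abt
  have k2 : ContDiff ℂ (⊤ : ℕ∞) (fun z : Fin 10 → ℂ => ky (z 0) (z 1) (z 2)) :=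
    ContDiff.comp (g := fun q : ℂ × ℂ × ℂ => ky q.1 q.2.1 q.2.2)
      (f := fun z : Fin 10 → ℂ => (z 0, z 1, z 2)) h2 cd_abt
  have k3 : ContDiff ℂ (⊤ : ℕ∞) (fun z : Fin 10 → ℂ => kz (z 0) (z 1) (z 2)) :=
    ContDiff.comp (g := fun q : ℂ × ℂ × ℂ => kz q.1 q.2.1 q.2.2)
      (f := fun z : Fin 10 → ℂ => (z 0, z 1, z 2)) h3 cd_abt
  have k4 : ContDiff ℂ (⊤ : ℕ∞) (fun z : Fin 10 → ℂ => kappa (z 0) (z 1) (z 2)) :=
    ContDiff.comp (g := fun q : ℂ × ℂ × ℂ => kappa q.1 q.2.1 q.2.2)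
      (f := fun z : Fin 10 → ℂ => (z 0, z 1, z 2)) h4 cd_abt
  have c : ∀ i : Fin 10, ContDiff ℂ (⊤ : ℕ∞) (fun z : Fin 10 → ℂ => z i) := fun i => by fun_prop
  unfold EE2 E2
  exact ((((c 6).mul (c 4)).mul k4).neg.add ((c 8).sub (c 7))).add
    ((c 5).mul (((((((c 2).mul (c 6)).mul k1).mul (c 8)).add
      ((((c 2).mul (c 6)).mul k2).mul (c 7))).add
      ((((c 2).mul (c 3)).mul (c 7)).mul (c 8))).sub
      (((contDiff_const.mul (c 6)).mul k3).mul (c 9)) |>.sub ((c 3).mul ((c 9).pow 2))))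

theorem hTWG : StTMC → StKSM → StGR → StTWG := by
  intro hT hK hG U hU h0
  have hE1 := cd_E1
  have hE2 := cd_E2 hK
  let e : (Fin 10 → ℂ) → ℂ × ℂ × ℂ := fun z => (EE1 z, EE2 z, z 5 - z 3)
  let g : (Fin 10 → ℂ) → ℂ := fun z => z 5
  have he : ContDiff ℂ (⊤ : ℕ∞) e := hE1.prodMk (hE2.prodMk (by fun_prop))
  have hg : ContDiff ℂ (⊤ : ℕ∞) g := by fun_prop
  have hset : WG U = {x | x ∈ {z : Fin 10 → ℂ | z 2 ∈ U} ∧ e x = 0} := by
    ext z
    simp only [WG, WW, mem_ofPred_eq, e, Prod.mk_eq_zero, sub_eq_zero]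
    tauto
  rw [hset]
  refine hT (Fin 10 → ℂ) ℂ (ℂ × ℂ × ℂ) _ e g (hU.preimage (continuous_apply 2)) ?_ ?_ ?_
  · exact ((he.restrict_scalars ℝ).of_le (by simp)).contDiffOn
  · exact ((hg.restrict_scalars ℝ).of_le (by simp)).contDiffOn
  · intro x hx hex hgx
    have h5 : x 5 = 0 := hgx
    have he' : EE1 x = 0 ∧ EE2 x = 0 ∧ x 5 - x 3 = 0 := by
      simpa [e, Prod.mk_eq_zero] using hex
    obtain ⟨e1, -, e3⟩ := he'
    have h3 : x 3 = 0 := by rw [h5, zero_sub, neg_eq_zero] at e3; exact e3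
    have ht : x 2 ≠ 0 := fun h => h0 (by rw [← h]; exact hx)
    have hnu : nu (x 0) (x 1) (x 2) = 0 := by
      have := e1
      simp only [EE1, E1, h3, h5, zero_mul, sub_zero] at this
      exact this
    have dE1 : DifferentiableAt ℂ EE1 x := (hE1.differentiable (by simp)) x
    have dE2 : DifferentiableAt ℂ EE2 x := (hE2.differentiable (by simp)) x
    have d53 : DifferentiableAt ℂ (fun z : Fin 10 → ℂ => z 5 - z 3) x := by fun_prop
    have d5 : DifferentiableAt ℂ (fun z : Fin 10 → ℂ => z 5) x := by fun_prop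
    have dall : DifferentiableAt ℂ (fun y => (e y, g y)) x :=
      (dE1.prodMk (dE2.prodMk d53)).prodMk d5
    rw [dall.fderiv_restrictScalars ℝ]
    have hval : ∀ d : Fin 10 → ℂ, fderiv ℂ (fun y => (e y, g y)) x d =
        ((fderiv ℂ EE1 x d, fderiv ℂ EE2 x d, d 5 - d 3), d 5) := by
      intro d
      have hf : HasFDerivAt (fun y => (e y, g y))
          (((fderiv ℂ EE1 x).prod ((fderiv ℂ EE2 x).prod
            ((ContinuousLinearMap.proj 5 : (Fin 10 → ℂ) →L[ℂ] ℂ) -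
              (ContinuousLinearMap.proj 3 : (Fin 10 → ℂ) →L[ℂ] ℂ)))).prod
            (ContinuousLinearMap.proj 5 : (Fin 10 → ℂ) →L[ℂ] ℂ)) x := by
        refine (dE1.hasFDerivAt.prodMk (dE2.hasFDerivAt.prodMk ?_)).prodMk ?_
        · exact (hasFDerivAt_apply (5 : Fin 10) x).sub (hasFDerivAt_apply (3 : Fin 10) x)
        · exact hasFDerivAt_apply (5 : Fin 10) x
      rw [hf.fderiv]
      rfl
    -- the directions
    have y1 : fderiv ℂ EE1 x (Pi.single 8 1) = 0 := by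
      refine line dE1 ?_
      have : (fun s : ℂ => EE1 (x + s • (Pi.single 8 1 : Fin 10 → ℂ))) = fun _ => EE1 x := by
        funext s
        simp [EE1]
      rw [this]
      exact hasDerivAt_const _ _
    have y2 : fderiv ℂ EE2 x (Pi.single 8 1) = 1 := by
      refine line dE2 ?_
      have : (fun s : ℂ => EE2 (x + s • (Pi.single 8 1 : Fin 10 → ℂ))) =
          fun s => EE2 x + s := by
        funext s
        simp [EE2, E2, h5]
        ring
      rw [this]
      exact (hasDerivAt_id _).const_add _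
    have a1 : fderiv ℂ EE1 x (Pi.single 0 1) = -2 * x 0 := by
      refine line dE1 ?_
      have : (fun s : ℂ => EE1 (x + s • (Pi.single 0 1 : Fin 10 → ℂ))) =
          fun s => EE1 x + (-2 * x 0 * s - s ^ 2) := by
        funext s
        simp [EE1, E1, nu]
        ring
      rw [this]
      have h := (((hasDerivAt_id (0 : ℂ)).const_mul (-2 * x 0)).sub
        ((hasDerivAt_id (0 : ℂ)).pow 2)).const_add (EE1 x)
      simpa using h
    have b1 : fderiv ℂ EE1 x (Pi.single 1 1) = 2 * (1 + x 2 * x 1) := by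
      refine line dE1 ?_
      have : (fun s : ℂ => EE1 (x + s • (Pi.single 1 1 : Fin 10 → ℂ))) =
          fun s => EE1 x + (2 * (1 + x 2 * x 1) * s + x 2 * s ^ 2) := by
        funext s
        simp [EE1, E1, nu]
        ring
      rw [this]
      have h := (((hasDerivAt_id (0 : ℂ)).const_mul (2 * (1 + x 2 * x 1))).add
        (((hasDerivAt_id (0 : ℂ)).pow 2).const_mul (x 2))).const_add (EE1 x)
      simpa using h
    obtain ⟨k, hk3, hk5, hk⟩ : ∃ k : Fin 10, k ≠ 3 ∧ k ≠ 5 ∧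
        fderiv ℂ EE1 x (Pi.single k 1) ≠ 0 := by
      by_cases ha : x 0 = 0
      · refine ⟨1, by decide, by decide, ?_⟩
        rw [b1]
        intro hb
        have hb' : 1 + x 2 * x 1 = 0 := by
          rcases mul_eq_zero.1 hb with h | h
          · norm_num at h
          · exact h
        exact hG.1 (x 0) (x 1) (x 2) ht ha hb' hnu
      · refine ⟨0, by decide, by decide, ?_⟩
        rw [a1]
        exact mul_ne_zero (by norm_num) ha
    rintro ⟨⟨α, β, γ⟩, δ⟩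
    set v : Fin 10 → ℂ := δ • (Pi.single 3 1 + Pi.single 5 1) - γ • Pi.single 3 1 with hv
    set p : ℂ := (α - fderiv ℂ EE1 x v) / fderiv ℂ EE1 x (Pi.single k 1) with hp
    set q : ℂ := β - fderiv ℂ EE2 x v - p * fderiv ℂ EE2 x (Pi.single k 1) with hq
    refine ⟨v + p • Pi.single k 1 + q • Pi.single 8 1, ?_⟩
    rw [ContinuousLinearMap.coe_restrictScalars', hval]
    have r1 : fderiv ℂ EE1 x (v + p • Pi.single k 1 + q • Pi.single 8 1) = α := by
      rw [map_add, map_add, map_smul, map_smul, y1, smul_zero, add_zero, smul_eq_mul, hp,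
        div_mul_cancel₀ _ hk]
      ring
    have r2 : fderiv ℂ EE2 x (v + p • Pi.single k 1 + q • Pi.single 8 1) = β := by
      rw [map_add, map_add, map_smul, map_smul, y2, smul_eq_mul, smul_eq_mul, hq]
      ring
    have r5 : (v + p • Pi.single k 1 + q • Pi.single 8 1 : Fin 10 → ℂ) 5 = δ := by
      have h : (Pi.single k (1 : ℂ) : Fin 10 → ℂ) 5 = 0 := Pi.single_eq_of_ne (Ne.symm hk5) _
      simp [hv, h]
    have r3 : (v + p • Pi.single k 1 + q • Pi.single 8 1 : Fin 10 → ℂ) 3 = δ - γ := by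
      have h : (Pi.single k (1 : ℂ) : Fin 10 → ℂ) 3 = 0 := Pi.single_eq_of_ne (Ne.symm hk3) _
      simp [hv, h]
    rw [r1, r2, r3, r5]
    simp

end Pool.Agent.Helper44.FX
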